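import Mathlib

/-!
Helper file (helper50) for MP_d16438_co: averaging over random copies, supersaturation.
-/

set_option autoImplicit false

namespace Pool.Dia50

open Finset

section Abstract

variable {G X ι : Type*} [Group G] [Fintype G] [DecidableEq X] [MulAction G X]

theorem count_trans (X0 : Finset X) (hinv : ∀ g : G, ∀ x ∈ X0, g • x ∈ X0)
    (htr : ∀ x ∈ X0, ∀ y ∈ X0, ∃ g : G, g • x = y) (F : Finset X) (hF : F ⊆ X0)
    (x : X) (hx : x ∈ X0) :
    ((univ : Finset G).filter (fun g => g • x ∈ F)).card * X0.card =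
      Fintype.card G * F.card := by
  classical
  have h1 : ∀ y ∈ X0, ((univ : Finset G).filter (fun g => g • y ∈ F)).card =
      ((univ : Finset G).filter (fun g => g • x ∈ F)).card := by
    intro y hy
    obtain ⟨h, rfl⟩ := htr x hx y hy
    apply Finset.card_equiv (Equiv.mulRight h)
    intro g
    simp [mul_smul]
  have h2 : ∑ y ∈ X0, ((univ : Finset G).filter (fun g => g • y ∈ F)).card =
      X0.card * ((univ : Finset G).filter (fun g => g • x ∈ F)).card := by
    rw [Finset.sum_congr rfl h1, Finset.sum_const, smul_eq_mul]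
  have h3 : ∑ y ∈ X0, ((univ : Finset G).filter (fun g => g • y ∈ F)).card =
      ∑ g : G, (X0.filter (fun y => g • y ∈ F)).card := by
    simp only [Finset.card_filter]
    rw [Finset.sum_comm]
  have h4 : ∀ g : G, (X0.filter (fun y => g • y ∈ F)).card = F.card := by
    intro g
    refine Finset.card_bij' (fun y _ => g • y) (fun y _ => g⁻¹ • y) ?_ ?_ ?_ ?_
    · intro y hy; exact (Finset.mem_filter.1 hy).2
    · intro y hy
      rw [Finset.mem_filter]
      exact ⟨hinv _ _ (hF hy), by rw [smul_inv_smul]; exact hy⟩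
    · intro y _; simp
    · intro y _; simp
  rw [h3, Finset.sum_congr rfl (fun g _ => h4 g), Finset.sum_const, smul_eq_mul,
    Finset.card_univ] at h2
  rw [mul_comm, ← h2]

theorem sum_copies (X0 : Finset X) (hinv : ∀ g : G, ∀ x ∈ X0, g • x ∈ X0)
    (htr : ∀ x ∈ X0, ∀ y ∈ X0, ∃ g : G, g • x = y) (F : Finset X) (hF : F ⊆ X0)
    (Y : Finset ι) (φ : ι → X) (hφ : ∀ y ∈ Y, φ y ∈ X0) :
    (∑ g : G, (Y.filter (fun y => g • φ y ∈ F)).card) * X0.card =
      Y.card * (Fintype.card G * F.card) := by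
  classical
  have h1 : ∑ g : G, (Y.filter (fun y => g • φ y ∈ F)).card =
      ∑ y ∈ Y, ((univ : Finset G).filter (fun g => g • φ y ∈ F)).card := by
    simp only [Finset.card_filter]
    rw [Finset.sum_comm]
  rw [h1, Finset.sum_mul, Finset.sum_congr rfl (fun y hy =>
    count_trans X0 hinv htr F hF (φ y) (hφ y hy)), Finset.sum_const, smul_eq_mul]

/-- Some copy of `Y` has at least the density of `F`. -/
theorem exists_copy (X0 : Finset X) (hinv : ∀ g : G, ∀ x ∈ X0, g • x ∈ X0)
    (htr : ∀ x ∈ X0, ∀ y ∈ X0, ∃ g : G, g • x = y) (F : Finset X) (hF : F ⊆ X0)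
    (N : ℕ) (hN : X0.card ≤ N * F.card)
    (Y : Finset ι) (φ : ι → X) (hφ : ∀ y ∈ Y, φ y ∈ X0) :
    ∃ g : G, Y.card ≤ N * (Y.filter (fun y => g • φ y ∈ F)).card := by
  classical
  by_contra hno
  push Not at hno
  have hY : Y.Nonempty := by
    by_contra hY
    rw [Finset.not_nonempty_iff_eq_empty] at hY
    have := hno 1
    rw [hY] at this
    simp at this
  obtain ⟨y0, hy0⟩ := hY
  have hX0 : 0 < X0.card := Finset.card_pos.2 ⟨_, hφ y0 hy0⟩
  have h1 := sum_copies X0 hinv htr F hF Y φ hφ
  have h2 : N * (∑ g : G, (Y.filter (fun y => g • φ y ∈ F)).card) < Fintype.card G * Y.card := by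
    rw [Finset.mul_sum]
    calc ∑ g : G, N * (Y.filter (fun y => g • φ y ∈ F)).card < ∑ _g : G, Y.card :=
          Finset.sum_lt_sum_of_nonempty ⟨1, Finset.mem_univ _⟩ (fun g _ => hno g)
      _ = Fintype.card G * Y.card := by rw [Finset.sum_const, smul_eq_mul, Finset.card_univ]
  have h3 : Fintype.card G * Y.card * X0.card ≤
      N * (∑ g : G, (Y.filter (fun y => g • φ y ∈ F)).card) * X0.card := by
    rw [mul_assoc N, h1]
    calc Fintype.card G * Y.card * X0.card ≤ Fintype.card G * Y.card * (N * F.card) :=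
          Nat.mul_le_mul_left _ hN
      _ = _ := by ring
  exact absurd (Nat.le_of_mul_le_mul_right h3 hX0) (not_le.2 h2)

/-- Supersaturation. -/
theorem supersat (X0 : Finset X) (hinv : ∀ g : G, ∀ x ∈ X0, g • x ∈ X0)
    (htr : ∀ x ∈ X0, ∀ y ∈ X0, ∃ g : G, g • x = y)
    (X1 : Finset (X × X)) (hinv1 : ∀ g : G, ∀ x ∈ X1, g • x ∈ X1)
    (htr1 : ∀ x ∈ X1, ∀ y ∈ X1, ∃ g : G, g • x = y) (F : Finset X) (hF : F ⊆ X0)
    (N : ℕ) (hN : X0.card ≤ N * F.card)
    (Y : Finset ι) (φ : ι → X) (hφ : ∀ y ∈ Y, φ y ∈ X0)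
    (hY : ∀ Z ⊆ Y, Y.card ≤ 2 * N * Z.card → ∃ y ∈ Z, ∃ z ∈ Z, (φ y, φ z) ∈ X1) :
    X1.card ≤ 2 * N * Y.card ^ 2 * (X1.filter (fun p => p.1 ∈ F ∧ p.2 ∈ F)).card := by
  classical
  have hYne : Y.Nonempty := by
    by_contra h
    rw [Finset.not_nonempty_iff_eq_empty] at h
    obtain ⟨y, hy, _⟩ := hY ∅ (Finset.empty_subset _) (by rw [h]; simp)
    simp at hy
  have hYpos : 0 < Y.card := Finset.card_pos.2 hYne
  obtain ⟨y0, hy0⟩ := hYne
  have hX0 : 0 < X0.card := Finset.card_pos.2 ⟨_, hφ y0 hy0⟩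
  set P := X1.filter (fun p => p.1 ∈ F ∧ p.2 ∈ F) with hP
  let z : G → ℕ := fun g => (Y.filter (fun y => g • φ y ∈ F)).card
  have hz : ∀ g, z g ≤ Y.card := fun g => Finset.card_filter_le _ _
  set good := (univ : Finset G).filter (fun g => Y.card ≤ 2 * N * z g) with hgood
  have hG : 0 < Fintype.card G := Fintype.card_pos
  -- (1)
  have h1 : (∑ g : G, z g) * X0.card = Y.card * (Fintype.card G * F.card) :=
    sum_copies X0 hinv htr F hF Y φ hφ
  have h1' : Fintype.card G * Y.card ≤ N * ∑ g : G, z g := by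
    apply Nat.le_of_mul_le_mul_right _ hX0
    rw [mul_assoc N, h1]
    calc Fintype.card G * Y.card * X0.card ≤ Fintype.card G * Y.card * (N * F.card) :=
          Nat.mul_le_mul_left _ hN
      _ = _ := by ring
  -- (2)
  have h2 : 2 * N * ∑ g : G, z g ≤ 2 * N * Y.card * good.card + Y.card * Fintype.card G := by
    rw [Finset.mul_sum, ← Finset.sum_filter_add_sum_filter_not univ
      (fun g => Y.card ≤ 2 * N * z g)]
    apply Nat.add_le_add
    · calc ∑ g ∈ (univ : Finset G).filter (fun g => Y.card ≤ 2 * N * z g), 2 * N * z g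
          ≤ ∑ g ∈ (univ : Finset G).filter (fun g => Y.card ≤ 2 * N * z g), 2 * N * Y.card :=
            Finset.sum_le_sum (fun g _ => Nat.mul_le_mul_left _ (hz g))
        _ = 2 * N * Y.card * good.card := by
            rw [Finset.sum_const, smul_eq_mul, mul_comm, hgood]
    · calc ∑ g ∈ (univ : Finset G).filter (fun g => ¬ Y.card ≤ 2 * N * z g), 2 * N * z g
          ≤ ∑ g ∈ (univ : Finset G).filter (fun g => ¬ Y.card ≤ 2 * N * z g), Y.card :=
            Finset.sum_le_sum (fun g hg => by
              have := (Finset.mem_filter.1 hg).2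
              omega)
        _ ≤ ∑ g : G, Y.card := Finset.sum_le_sum_of_subset (Finset.filter_subset _ _)
        _ = Y.card * Fintype.card G := by
            rw [Finset.sum_const, smul_eq_mul, Finset.card_univ, mul_comm]
  have h2' : Fintype.card G ≤ 2 * N * good.card := by
    have h : Y.card * (2 * Fintype.card G) ≤ Y.card * (2 * N * good.card + Fintype.card G) := by
      calc Y.card * (2 * Fintype.card G) = 2 * (Fintype.card G * Y.card) := by ring
        _ ≤ 2 * (N * ∑ g : G, z g) := Nat.mul_le_mul_left _ h1'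
        _ = 2 * N * ∑ g : G, z g := by ring
        _ ≤ _ := h2
        _ = _ := by ring
    have := Nat.le_of_mul_le_mul_left h hYpos
    omega
  -- (3)
  set PP := (Y ×ˢ Y).filter (fun p => (φ p.1, φ p.2) ∈ X1) with hPP
  have h3 : good.card ≤ ∑ p ∈ PP,
      ((univ : Finset G).filter (fun g => g • (φ p.1, φ p.2) ∈ P)).card := by
    have hsub : good ⊆ PP.biUnion
        (fun p => (univ : Finset G).filter (fun g => g • (φ p.1, φ p.2) ∈ P)) := by
      intro g hg
      have hg' := (Finset.mem_filter.1 hg).2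
      obtain ⟨y, hy, w, hw, hyw⟩ := hY (Y.filter (fun y => g • φ y ∈ F))
        (Finset.filter_subset _ _) hg'
      rw [Finset.mem_filter] at hy hw
      rw [Finset.mem_biUnion]
      refine ⟨(y, w), ?_, ?_⟩
      · rw [hPP, Finset.mem_filter, Finset.mem_product]
        exact ⟨⟨hy.1, hw.1⟩, hyw⟩
      · rw [Finset.mem_filter]
        refine ⟨Finset.mem_univ _, ?_⟩
        rw [hP, Finset.mem_filter]
        exact ⟨hinv1 g _ hyw, hy.2, hw.2⟩
    exact (Finset.card_le_card hsub).trans Finset.card_biUnion_le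
  have h3' : good.card * X1.card ≤ Y.card ^ 2 * (Fintype.card G * P.card) := by
    calc good.card * X1.card ≤ (∑ p ∈ PP,
          ((univ : Finset G).filter (fun g => g • (φ p.1, φ p.2) ∈ P)).card) * X1.card :=
            Nat.mul_le_mul_right _ h3
      _ = ∑ p ∈ PP, Fintype.card G * P.card := by
          rw [Finset.sum_mul]
          apply Finset.sum_congr rfl
          intro p hp
          exact count_trans X1 hinv1 htr1 P (Finset.filter_subset _ _) _
            (Finset.mem_filter.1 hp).2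
      _ = PP.card * (Fintype.card G * P.card) := by rw [Finset.sum_const, smul_eq_mul]
      _ ≤ Y.card ^ 2 * (Fintype.card G * P.card) := by
          apply Nat.mul_le_mul_right
          calc PP.card ≤ (Y ×ˢ Y).card := Finset.card_filter_le _ _
            _ = Y.card ^ 2 := by rw [Finset.card_product, sq]
  -- (4)
  have h4 : Fintype.card G * X1.card ≤ Fintype.card G * (2 * N * Y.card ^ 2 * P.card) := by
    calc Fintype.card G * X1.card ≤ 2 * N * good.card * X1.card := Nat.mul_le_mul_right _ h2'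
      _ = 2 * N * (good.card * X1.card) := by ring
      _ ≤ 2 * N * (Y.card ^ 2 * (Fintype.card G * P.card)) := Nat.mul_le_mul_left _ h3'
      _ = _ := by ring
  exact Nat.le_of_mul_le_mul_left h4 hG

end Abstract

end Pool.Dia50
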