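import Mathlib

/-!
Helper file (helper50) for MP_d16438_co: the Frankl-Wilson bound modulo a power of two, in the
form which is needed, and the density statement for pairs in one slice.
-/

set_option autoImplicit false

namespace Pool.Dia50

open Finset

/-- All binomial coefficients of `2^m - 1` are odd. -/
theorem odd_choose (m j : ℕ) (hj : j < 2 ^ m) : ((2 ^ m - 1).choose j) % 2 = 1 := by
  induction j with
  | zero => simp
  | succ j ih =>
    have h1 := ih (by omega)
    have h2 : (2 ^ m).choose (j + 1) = (2 ^ m - 1).choose j + (2 ^ m - 1).choose (j + 1) := by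
      have : 2 ^ m = (2 ^ m - 1) + 1 := by omega
      conv_lhs => rw [this]
      exact Nat.choose_succ_succ _ _
    have h3 : 2 ∣ (2 ^ m).choose (j + 1) :=
      Nat.Prime.dvd_choose_pow Nat.prime_two (by omega) (by omega)
    omega

/-- If `q = 2^e` does not divide `u` then `C(u-1, q-1)` is even. -/
theorem even_choose (e u : ℕ) (hu : 1 ≤ u) (hd : ¬ 2 ^ e ∣ u) :
    2 ∣ (u - 1).choose (2 ^ e - 1) := by
  have hq : 1 ≤ 2 ^ e := Nat.one_le_two_pow
  have h1 : u * (u - 1).choose (2 ^ e - 1) = 2 ^ e * u.choose (2 ^ e) := by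
    have := Nat.add_one_mul_choose_eq (u - 1) (2 ^ e - 1)
    have e1 : u - 1 + 1 = u := by omega
    have e2 : 2 ^ e - 1 + 1 = 2 ^ e := by omega
    rw [e1, e2] at this
    rw [this]; ring
  by_contra hodd
  have hc : Nat.Coprime (2 ^ e) ((u - 1).choose (2 ^ e - 1)) := by
    apply Nat.Coprime.pow_left
    exact (Nat.Prime.coprime_iff_not_dvd Nat.prime_two).2 hodd
  apply hd
  have : 2 ^ e ∣ u * (u - 1).choose (2 ^ e - 1) := by rw [h1]; exact Dvd.intro _ rfl
  exact hc.dvd_of_dvd_mul_right this

variable {m : ℕ}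

/-- The index type: subsets with fewer than `q` elements. -/
abbrev Small (m q : ℕ) := {I : Finset (Fin m) // I.card < q}

/-- Vandermonde as a scalar product. -/
theorem vander (q c : ℕ) (hq : 1 ≤ q) (A B : Finset (Fin m)) :
    ∑ I : Small m q, (if I.1 ⊆ A then c.choose (q - 1 - I.1.card) else 0) *
      (if I.1 ⊆ B then 1 else 0) = ((A ∩ B).card + c).choose (q - 1) := by
  classical
  rw [Nat.add_choose_eq, Finset.Nat.sum_antidiagonal_eq_sum_range_succ_mk]
  have hq' : (q - 1).succ = q := by omega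
  rw [hq']
  have h1 : ∑ I ∈ (univ : Finset (Finset (Fin m))).filter (fun I => I.card < q),
      (if I ⊆ A then c.choose (q - 1 - I.card) else 0) * (if I ⊆ B then 1 else 0) =
      ∑ I : Small m q, (if I.1 ⊆ A then c.choose (q - 1 - I.1.card) else 0) *
      (if I.1 ⊆ B then 1 else 0) :=
    Finset.sum_subtype _ (by intro x; simp) _
  rw [← h1, ← Finset.sum_fiberwise_of_maps_to (t := range q) (g := fun I => I.card)
    (by intro x hx; simpa using hx)]
  apply Finset.sum_congr rfl
  intro i hi
  have hi' : i < q := by simpa using hi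
  have h2 : ∀ I ∈ ((univ : Finset (Finset (Fin m))).filter (fun I => I.card < q)).filter
      (fun I => I.card = i),
      (if I ⊆ A then c.choose (q - 1 - I.card) else 0) * (if I ⊆ B then 1 else 0) =
      if I ⊆ A ∩ B then c.choose (q - 1 - i) else 0 := by
    intro I hI
    have hI' : I.card = i := by simp at hI; exact hI.2
    rw [hI']
    by_cases hA : I ⊆ A
    · by_cases hB : I ⊆ B
      · simp [hA, hB, Finset.subset_inter_iff]
      · simp [hA, hB, Finset.subset_inter_iff]
    · simp [hA, Finset.subset_inter_iff]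
  rw [Finset.sum_congr rfl h2, ← Finset.sum_filter, Finset.sum_const, smul_eq_mul]
  congr 1
  rw [← Finset.card_powersetCard]
  congr 1
  ext I
  simp only [Finset.mem_filter, Finset.mem_univ, true_and, Finset.mem_powersetCard]
  constructor
  · rintro ⟨⟨_, h⟩, h'⟩; exact ⟨h', h⟩
  · rintro ⟨h', h⟩; exact ⟨⟨by omega, h⟩, h'⟩

/-- Number of small subsets. -/
theorem card_small (m q : ℕ) : Fintype.card (Small m q) = ∑ i ∈ range q, m.choose i := by
  classical
  rw [Fintype.card_subtype]
  rw [Finset.card_eq_sum_card_fiberwise (f := fun I : Finset (Fin m) => I.card) (t := range q)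
    (by intro x hx; simpa using hx)]
  apply Finset.sum_congr rfl
  intro i hi
  have hi' : i < q := by simpa using hi
  have : ((univ : Finset (Finset (Fin m))).filter (fun I => I.card < q)).filter
      (fun I => I.card = i) = powersetCard i univ := by
    ext I
    simp only [Finset.mem_filter, Finset.mem_univ, true_and, Finset.mem_powersetCard,
      Finset.subset_univ]
    constructor
    · rintro ⟨_, h⟩; exact h
    · intro h; exact ⟨by omega, h⟩
  rw [this, Finset.card_powersetCard, Finset.card_univ, Fintype.card_fin]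

/-- Frankl-Wilson modulo `q = 2^e`: a family of `(s+q)`-subsets of an `m`-set, `s < q`, without
two distinct members which meet in exactly `s` elements, has at most `∑_{i<q} C(m,i)` members. -/
theorem frankl_wilson (e s : ℕ) (hs : s < 2 ^ e) (F : Finset (Finset (Fin m)))
    (hF : ∀ A ∈ F, A.card = s + 2 ^ e)
    (hav : ∀ A ∈ F, ∀ B ∈ F, A ≠ B → (A ∩ B).card ≠ s) :
    F.card ≤ ∑ i ∈ range (2 ^ e), m.choose i := by
  classical
  set q := 2 ^ e with hq
  have hq1 : 1 ≤ q := Nat.one_le_two_pow
  set c := q - s - 1 with hc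
  let v : F → Small m q → ZMod 2 :=
    fun A I => if I.1 ⊆ A.1 then (c.choose (q - 1 - I.1.card) : ZMod 2) else 0
  let w : F → Small m q → ZMod 2 := fun B I => if I.1 ⊆ B.1 then 1 else 0
  have hvw : ∀ A B : F, ∑ I, v A I * w B I =
      ((((A.1 ∩ B.1).card + c).choose (q - 1) : ℕ) : ZMod 2) := by
    intro A B
    rw [← vander q c hq1 A.1 B.1]
    push_cast
    rfl
  have hdiag : ∀ A : F, ∑ I, v A I * w A I = 1 := by
    intro A
    rw [hvw, Finset.inter_self, hF A.1 A.2]
    have : s + q + c = 2 ^ (e + 1) - 1 := by rw [pow_succ]; omega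
    rw [this]
    have h1 := odd_choose (e + 1) (q - 1) (by rw [pow_succ]; omega)
    have := ZMod.natCast_mod ((2 ^ (e + 1) - 1).choose (q - 1)) 2
    rw [← this, h1]; rfl
  have hoff : ∀ A B : F, A ≠ B → ∑ I, v A I * w B I = 0 := by
    intro A B hAB
    rw [hvw, ZMod.natCast_eq_zero_iff]
    have hne : A.1 ≠ B.1 := fun h => hAB (Subtype.ext h)
    have hcard := hav A.1 A.2 B.1 B.2 hne
    have hlt : (A.1 ∩ B.1).card < s + q := by
      have h1 : (A.1 ∩ B.1).card ≤ A.1.card := Finset.card_le_card Finset.inter_subset_left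
      rw [hF A.1 A.2] at h1
      rcases Nat.lt_or_eq_of_le h1 with h | h
      · exact h
      · exfalso
        have e1 : A.1 ∩ B.1 = A.1 :=
          Finset.eq_of_subset_of_card_le Finset.inter_subset_left (by rw [hF A.1 A.2, h])
        have e2 : A.1 = B.1 := by
          apply Finset.eq_of_subset_of_card_le
          · rw [← e1]; exact Finset.inter_subset_right
          · rw [hF A.1 A.2, hF B.1 B.2]
        exact hne e2
    have key := even_choose e ((A.1 ∩ B.1).card + (q - s)) (by omega) (by
      intro hd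
      obtain ⟨k, hk⟩ := hd
      rw [← hq] at hk
      have hk1 : k < 2 := by
        by_contra hk2
        have : 2 ≤ k := by omega
        have : q * 2 ≤ q * k := Nat.mul_le_mul_left q this
        omega
      have hk0 : k ≠ 0 := by
        rintro rfl
        rw [mul_zero] at hk
        omega
      have : k = 1 := by omega
      rw [this, mul_one] at hk
      omega)
    have e3 : (A.1 ∩ B.1).card + (q - s) - 1 = (A.1 ∩ B.1).card + c := by omega
    rw [e3, ← hq] at key
    exact key
  have hli : LinearIndependent (ZMod 2) v := by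
    rw [Fintype.linearIndependent_iff]
    intro g hg B
    have h1 : ∑ I, (∑ A, g A • v A) I * w B I = 0 := by rw [hg]; simp
    have h2 : ∑ I, (∑ A, g A • v A) I * w B I = ∑ A, g A * ∑ I, v A I * w B I := by
      simp only [Finset.sum_apply, Pi.smul_apply, smul_eq_mul, Finset.sum_mul, Finset.mul_sum]
      rw [Finset.sum_comm]
      apply Finset.sum_congr rfl; intro A _
      apply Finset.sum_congr rfl; intro I _
      ring
    rw [h2, Finset.sum_eq_single B] at h1
    · rw [hdiag, mul_one] at h1; exact h1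
    · intro A _ hA
      rw [hoff A B hA, mul_zero]
    · intro h; exact absurd (Finset.mem_univ _) h
  have h3 := hli.fintype_card_le_finrank
  rw [Module.finrank_fintype_fun_eq_card, card_small, Fintype.card_coe] at h3
  exact h3

/-- Growth of the binomial coefficients below `2/5` of the ground set. -/
theorem choose_growth (m κ i : ℕ) (hm : 2 * m = 5 * κ) (hi : i < κ) :
    3 * m.choose i ≤ 2 * m.choose (i + 1) := by
  have h := Nat.choose_succ_right_eq m i
  have h1 : 3 * (i + 1) ≤ 2 * (m - i) := by omega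
  have h2 : (3 * m.choose i) * (i + 1) ≤ (2 * m.choose (i + 1)) * (i + 1) := by
    calc (3 * m.choose i) * (i + 1) = m.choose i * (3 * (i + 1)) := by ring
      _ ≤ m.choose i * (2 * (m - i)) := Nat.mul_le_mul_left _ h1
      _ = 2 * (m.choose i * (m - i)) := by ring
      _ = 2 * (m.choose (i + 1) * (i + 1)) := by rw [h]
      _ = _ := by ring
  exact Nat.le_of_mul_le_mul_right h2 (by omega)

theorem sum_choose_le (m κ q : ℕ) (hm : 2 * m = 5 * κ) (hq : q ≤ κ) :
    ∑ i ∈ range q, m.choose i ≤ 2 * m.choose q := by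
  induction q with
  | zero => simp
  | succ q ih =>
    rw [Finset.sum_range_succ]
    have h1 := ih (by omega)
    have h2 := choose_growth m κ q hm (by omega)
    omega

theorem choose_pow_growth (m κ q t : ℕ) (hm : 2 * m = 5 * κ) (hq : q + t ≤ κ) :
    3 ^ t * m.choose q ≤ 2 ^ t * m.choose (q + t) := by
  induction t with
  | zero => simp
  | succ t ih =>
    have h1 := ih (by omega)
    have h2 := choose_growth m κ (q + t) hm (by omega)
    calc 3 ^ (t + 1) * m.choose q = 3 * (3 ^ t * m.choose q) := by ring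
      _ ≤ 3 * (2 ^ t * m.choose (q + t)) := Nat.mul_le_mul_left _ h1
      _ = 2 ^ t * (3 * m.choose (q + t)) := by ring
      _ ≤ 2 ^ t * (2 * m.choose (q + t + 1)) := Nat.mul_le_mul_left _ h2
      _ = _ := by rw [← add_assoc]; ring

/-- The density statement for pairs: `σ = 4 τ`, `q = 2^e`, `κ = σ + q`, `m = 5 κ / 2`. -/
theorem pair_dens (e τ : ℕ) (hτ : 1 ≤ τ) (hs : 4 * τ < 2 ^ e)
    (hm : 2 * m = 5 * (4 * τ + 2 ^ e)) (F : Finset (Finset (Fin m)))
    (hF : ∀ A ∈ F, A.card = 4 * τ + 2 ^ e)
    (hd : m.choose (4 * τ + 2 ^ e) ≤ 2 ^ τ * F.card) :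
    ∃ A ∈ F, ∃ B ∈ F, A ≠ B ∧ (A ∩ B).card = 4 * τ := by
  by_contra hno
  push Not at hno
  have h1 := frankl_wilson e (4 * τ) hs F hF hno
  have h2 := sum_choose_le m _ (2 ^ e) hm (by omega)
  have h3 := choose_pow_growth m _ (2 ^ e) (4 * τ) hm (by omega)
  have hpos : 0 < m.choose (2 ^ e) := Nat.choose_pos (by omega)
  rw [add_comm (2 ^ e)] at h3
  have h4 : 3 ^ (4 * τ) * m.choose (2 ^ e) ≤ (2 ^ (4 * τ) * 2 ^ τ * 2) * m.choose (2 ^ e) := by
    calc 3 ^ (4 * τ) * m.choose (2 ^ e) ≤ 2 ^ (4 * τ) * m.choose (4 * τ + 2 ^ e) := h3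
      _ ≤ 2 ^ (4 * τ) * (2 ^ τ * F.card) := Nat.mul_le_mul_left _ hd
      _ ≤ 2 ^ (4 * τ) * (2 ^ τ * (2 * m.choose (2 ^ e))) :=
        Nat.mul_le_mul_left _ (Nat.mul_le_mul_left _ (h1.trans h2))
      _ = _ := by ring
  have h5 := Nat.le_of_mul_le_mul_right h4 hpos
  have h6 : (3 : ℕ) ^ (4 * τ) = 81 ^ τ := by rw [pow_mul]; norm_num
  have h7 : (2 : ℕ) ^ (4 * τ) * 2 ^ τ = 32 ^ τ := by
    rw [← pow_add, show 4 * τ + τ = 5 * τ by ring, pow_mul]; norm_num
  rw [h6, h7] at h5
  have h8 : ∀ k : ℕ, 32 ^ (k + 1) * 2 < 81 ^ (k + 1) := by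
    intro k
    induction k with
    | zero => norm_num
    | succ k ih =>
      calc 32 ^ (k + 1 + 1) * 2 = 32 * (32 ^ (k + 1) * 2) := by ring
        _ < 81 * 81 ^ (k + 1) := by
          have : (0:ℕ) < 81 ^ (k + 1) := by positivity
          nlinarith
        _ = 81 ^ (k + 1 + 1) := by ring
  obtain ⟨k, rfl⟩ : ∃ k, τ = k + 1 := ⟨τ - 1, by omega⟩
  exact absurd h5 (not_le.2 (h8 k))

end Pool.Dia50
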