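import Mathlib
import Pool.Agent.Dia50.FW
import Pool.Agent.Dia50.Avg

/-!
Helper file (helper50) for MP_d16438_co: cliques in dense subfamilies of a slice.
-/

set_option autoImplicit false

namespace Pool.Dia50

open Finset Pointwise

variable {n : ℕ}

theorem perm_pair (A B A' B' : Finset (Fin n)) (hA : A.card = A'.card) (hB : B.card = B'.card)
    (hAB : (A ∩ B).card = (A' ∩ B').card) :
    ∃ g : Equiv.Perm (Fin n), g • A = A' ∧ g • B = B' := by
  classical
  let f : Fin n → Bool × Bool := fun x => (decide (x ∈ A), decide (x ∈ B))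
  let f' : Fin n → Bool × Bool := fun x => (decide (x ∈ A'), decide (x ∈ B'))
  have hc : ∀ c : Bool × Bool, Fintype.card {x // f x = c} = Fintype.card {x // f' x = c} := by
    intro c
    rw [Fintype.card_subtype, Fintype.card_subtype]
    have h1 : ∀ A B : Finset (Fin n), (A \ B).card + (A ∩ B).card = A.card :=
      fun A B => Finset.card_sdiff_add_card_inter A B
    have h2 : ∀ A B : Finset (Fin n), (B \ A).card + (A ∩ B).card = B.card := by
      intro A B
      rw [Finset.inter_comm]; exact Finset.card_sdiff_add_card_inter B A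
    have h3 : ∀ A B : Finset (Fin n), (univ \ (A ∪ B)).card + (A ∪ B).card = n := by
      intro A B
      have := Finset.card_sdiff_add_card_eq_card (Finset.subset_univ (A ∪ B))
      rw [Finset.card_univ, Fintype.card_fin] at this
      exact this
    have h4 : ∀ A B : Finset (Fin n), (A ∪ B).card + (A ∩ B).card = A.card + B.card :=
      fun A B => Finset.card_union_add_card_inter A B
    rcases c with ⟨c1, c2⟩
    have e : ∀ A B : Finset (Fin n), ∀ c1 c2 : Bool,
        ((univ : Finset (Fin n)).filter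
          (fun x => (decide (x ∈ A), decide (x ∈ B)) = (c1, c2))).card =
        (match c1, c2 with
          | true, true => (A ∩ B).card
          | true, false => (A \ B).card
          | false, true => (B \ A).card
          | false, false => (univ \ (A ∪ B)).card) := by
      intro A B c1 c2
      cases c1 <;> cases c2 <;> simp only [] <;> congr 1 <;> ext x <;> simp [and_comm]
    show ((univ : Finset (Fin n)).filter
          (fun x => (decide (x ∈ A), decide (x ∈ B)) = (c1, c2))).card =
        ((univ : Finset (Fin n)).filter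
          (fun x => (decide (x ∈ A'), decide (x ∈ B')) = (c1, c2))).card
    rw [e, e]
    have a1 := h1 A B
    have a2 := h1 A' B'
    have a3 := h2 A B
    have a4 := h2 A' B'
    have a5 := h3 A B
    have a6 := h3 A' B'
    have a7 := h4 A B
    have a8 := h4 A' B'
    cases c1 <;> cases c2 <;> simp only [] <;> omega
  let e : ∀ c, {x // f x = c} ≃ {x // f' x = c} := fun c => Fintype.equivOfCardEq (hc c)
  let g : Equiv.Perm (Fin n) := Equiv.ofFiberEquiv e
  have hg : ∀ x, f' (g x) = f x := fun x => Equiv.ofFiberEquiv_map e x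
  refine ⟨g, ?_, ?_⟩
  · apply Finset.eq_of_subset_of_card_le
    · intro x hx
      rw [Finset.mem_smul_finset] at hx
      obtain ⟨y, hy, rfl⟩ := hx
      have := congrArg Prod.fst (hg y)
      simpa [f, f', hy] using this
    · rw [Finset.card_smul_finset, hA]
  · apply Finset.eq_of_subset_of_card_le
    · intro x hx
      rw [Finset.mem_smul_finset] at hx
      obtain ⟨y, hy, rfl⟩ := hx
      have := congrArg Prod.snd (hg y)
      simpa [f, f', hy] using this
    · rw [Finset.card_smul_finset, hB]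

/-- Every dense family in the slice contains `j` sets with pairwise intersections `s`. -/
def Dens (j n k s N : ℕ) : Prop :=
  ∀ F : Finset (Finset (Fin n)), (∀ A ∈ F, A.card = k) → n.choose k ≤ N * F.card →
    ∃ C ⊆ F, C.card = j ∧ ∀ A ∈ C, ∀ B ∈ C, A ≠ B → (A ∩ B).card = s

/-- All ordered pairs with intersection `s`. -/
def prs (n k s : ℕ) : Finset (Finset (Fin n) × Finset (Fin n)) :=
  univ.filter (fun p => p.1.card = k ∧ p.2.card = k ∧ (p.1 ∩ p.2).card = s)

theorem mem_prs {k s : ℕ} {p : Finset (Fin n) × Finset (Fin n)} :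
    p ∈ prs n k s ↔ p.1.card = k ∧ p.2.card = k ∧ (p.1 ∩ p.2).card = s := by
  simp [prs]

theorem slice_inv (k : ℕ) (g : Equiv.Perm (Fin n)) (A : Finset (Fin n))
    (hA : A ∈ powersetCard k (univ : Finset (Fin n))) :
    g • A ∈ powersetCard k (univ : Finset (Fin n)) := by
  rw [Finset.mem_powersetCard] at hA ⊢
  exact ⟨Finset.subset_univ _, by rw [Finset.card_smul_finset]; exact hA.2⟩

theorem slice_tr (k : ℕ) (A : Finset (Fin n)) (hA : A ∈ powersetCard k (univ : Finset (Fin n)))
    (B : Finset (Fin n)) (hB : B ∈ powersetCard k (univ : Finset (Fin n))) :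
    ∃ g : Equiv.Perm (Fin n), g • A = B := by
  rw [Finset.mem_powersetCard] at hA hB
  obtain ⟨g, hg, _⟩ := perm_pair A A B B (by rw [hA.2, hB.2]) (by rw [hA.2, hB.2])
    (by rw [Finset.inter_self, Finset.inter_self, hA.2, hB.2])
  exact ⟨g, hg⟩

theorem prs_inv (k s : ℕ) (g : Equiv.Perm (Fin n)) (p : Finset (Fin n) × Finset (Fin n))
    (hp : p ∈ prs n k s) : g • p ∈ prs n k s := by
  rw [mem_prs] at hp ⊢
  rw [Prod.smul_fst, Prod.smul_snd, ← Finset.smul_finset_inter, Finset.card_smul_finset,
    Finset.card_smul_finset, Finset.card_smul_finset]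
  exact hp

theorem prs_tr (k s : ℕ) (p : Finset (Fin n) × Finset (Fin n)) (hp : p ∈ prs n k s)
    (q : Finset (Fin n) × Finset (Fin n)) (hq : q ∈ prs n k s) :
    ∃ g : Equiv.Perm (Fin n), g • p = q := by
  rw [mem_prs] at hp hq
  obtain ⟨g, h1, h2⟩ := perm_pair p.1 p.2 q.1 q.2 (by rw [hp.1, hq.1]) (by rw [hp.2.1, hq.2.1])
    (by rw [hp.2.2, hq.2.2])
  exact ⟨g, Prod.ext h1 h2⟩

/-- The step of the induction, with abstract embeddings. -/
theorem dens_step (j n k s N N' m κ σ m' k' s' : ℕ) (hj : 1 ≤ j) (hsk : s < k)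
    (φ : Finset (Fin m) → Finset (Fin n))
    (hφ1 : ∀ T, T.card = κ → (φ T).card = k)
    (hφ2 : ∀ T T', T.card = κ → T'.card = κ → (T ∩ T').card = σ → (φ T ∩ φ T').card = s)
    (hpair : ∀ Z : Finset (Finset (Fin m)), (∀ A ∈ Z, A.card = κ) →
      m.choose κ ≤ 2 * N * Z.card → ∃ A ∈ Z, ∃ B ∈ Z, A ≠ B ∧ (A ∩ B).card = σ)
    (F0 : Finset (Fin n)) (hF0 : F0.card = k)
    (ψ : Finset (Fin m') → Finset (Fin n))
    (hψ1 : ∀ T, T.card = k' → (ψ T).card = k)
    (hψ2 : ∀ T, T.card = k' → (F0 ∩ ψ T).card = s)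
    (hψ3 : ∀ T T', T.card = k' → T'.card = k' → (T ∩ T').card = s' → (ψ T ∩ ψ T').card = s)
    (hD : Dens j m' k' s' N') (hN' : 2 * N * (m.choose κ) ^ 2 ≤ N') :
    Dens (j + 1) n k s N := by
  classical
  intro F hF hN
  have hFsub : F ⊆ powersetCard k (univ : Finset (Fin n)) := by
    intro A hA
    rw [Finset.mem_powersetCard]
    exact ⟨Finset.subset_univ _, hF A hA⟩
  have hcardX0 : (powersetCard k (univ : Finset (Fin n))).card = n.choose k := by
    rw [Finset.card_powersetCard, Finset.card_univ, Fintype.card_fin]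
  have hcardY : (powersetCard κ (univ : Finset (Fin m))).card = m.choose κ := by
    rw [Finset.card_powersetCard, Finset.card_univ, Fintype.card_fin]
  have hcardY' : (powersetCard k' (univ : Finset (Fin m'))).card = m'.choose k' := by
    rw [Finset.card_powersetCard, Finset.card_univ, Fintype.card_fin]
  have h1 := supersat (G := Equiv.Perm (Fin n)) (powersetCard k (univ : Finset (Fin n)))
    (slice_inv k) (slice_tr k) (prs n k s) (prs_inv k s) (prs_tr k s) F hFsub N
    (by rw [hcardX0]; exact hN) (powersetCard κ (univ : Finset (Fin m))) φ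
    (by
      intro T hT
      rw [Finset.mem_powersetCard] at hT ⊢
      exact ⟨Finset.subset_univ _, hφ1 T hT.2⟩)
    (by
      intro Z hZ hcard
      rw [hcardY] at hcard
      have hZ' : ∀ A ∈ Z, A.card = κ := fun A hA => (Finset.mem_powersetCard.1 (hZ hA)).2
      obtain ⟨A, hA, B, hB, _, hAB⟩ := hpair Z hZ' hcard
      refine ⟨A, hA, B, hB, ?_⟩
      rw [mem_prs]
      exact ⟨hφ1 A (hZ' A hA), hφ1 B (hZ' B hB), hφ2 A B (hZ' A hA) (hZ' B hB) hAB⟩)
  rw [hcardY] at h1
  set P := (prs n k s).filter (fun p => p.1 ∈ F ∧ p.2 ∈ F) with hP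
  have h2 : (prs n k s).card ≤ N' * P.card := h1.trans (Nat.mul_le_mul_right _ hN')
  obtain ⟨g, hg⟩ := exists_copy (G := Equiv.Perm (Fin n)) (prs n k s) (prs_inv k s) (prs_tr k s) P
    (Finset.filter_subset _ _) N' h2 (powersetCard k' (univ : Finset (Fin m')))
    (fun T => (F0, ψ T))
    (by
      intro T hT
      rw [Finset.mem_powersetCard] at hT
      rw [mem_prs]
      exact ⟨hF0, hψ1 T hT.2, hψ2 T hT.2⟩)
  rw [hcardY'] at hg
  set Z := (powersetCard k' (univ : Finset (Fin m'))).filter (fun T => g • (F0, ψ T) ∈ P) with hZ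
  have hZc : ∀ A ∈ Z, A.card = k' := fun A hA =>
    (Finset.mem_powersetCard.1 (Finset.mem_filter.1 hA).1).2
  have hZP : ∀ A ∈ Z, g • F0 ∈ F ∧ g • ψ A ∈ F := by
    intro A hA
    have := (Finset.mem_filter.1 hA).2
    rw [hP, Finset.mem_filter] at this
    exact this.2
  obtain ⟨C, hCZ, hCj, hC⟩ := hD Z hZc hg
  have hinj : Set.InjOn (fun T => g • ψ T) (C : Set (Finset (Fin m'))) := by
    intro A hA B hB hAB
    by_contra hne
    have hA' := hZc A (hCZ hA)
    have hB' := hZc B (hCZ hB)
    have e1 := hψ3 A B hA' hB' (hC A hA B hB hne)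
    have e2 : ψ A = ψ B := smul_left_cancel g hAB
    rw [← e2, Finset.inter_self, hψ1 A hA'] at e1
    omega
  have hnot : g • F0 ∉ C.image (fun T => g • ψ T) := by
    intro h
    rw [Finset.mem_image] at h
    obtain ⟨A, hA, hA2⟩ := h
    have e2 : ψ A = F0 := smul_left_cancel g hA2
    have e1 := hψ2 A (hZc A (hCZ hA))
    rw [e2, Finset.inter_self, hF0] at e1
    omega
  refine ⟨insert (g • F0) (C.image (fun T => g • ψ T)), ?_, ?_, ?_⟩
  · intro A hA
    rw [Finset.mem_insert, Finset.mem_image] at hA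
    rcases hA with rfl | ⟨T, hT, rfl⟩
    · obtain ⟨T, hT⟩ : C.Nonempty := by
        rw [← Finset.card_pos]; omega
      exact (hZP T (hCZ hT)).1
    · exact (hZP T (hCZ hT)).2
  · rw [Finset.card_insert_of_notMem hnot, Finset.card_image_of_injOn hinj, hCj]
  · intro A hA B hB hne
    rw [Finset.mem_insert, Finset.mem_image] at hA hB
    rcases hA with rfl | ⟨T, hT, rfl⟩
    · rcases hB with rfl | ⟨T', hT', rfl⟩
      · exact absurd rfl hne
      · rw [← Finset.smul_finset_inter, Finset.card_smul_finset]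
        exact hψ2 T' (hZc T' (hCZ hT'))
    · rcases hB with rfl | ⟨T', hT', rfl⟩
      · rw [← Finset.smul_finset_inter, Finset.card_smul_finset, Finset.inter_comm]
        exact hψ2 T (hZc T (hCZ hT))
      · rw [← Finset.smul_finset_inter, Finset.card_smul_finset]
        apply hψ3 T T' (hZc T (hCZ hT)) (hZc T' (hCZ hT'))
        apply hC T hT T' hT'
        rintro rfl
        exact hne rfl

/-- Embedding with blocks of size `L` and a fixed part of size `a`. -/
theorem emb_exists (n a m L : ℕ) (h : a + m * L ≤ n) :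
    ∃ φ : Finset (Fin m) → Finset (Fin n), (∀ T, (φ T).card = a + T.card * L) ∧
      ∀ T T', (φ T ∩ φ T').card = a + (T ∩ T').card * L := by
  classical
  have hcard : Fintype.card (Fin a ⊕ Fin m × Fin L) ≤ Fintype.card (Fin n) := by
    simpa using h
  obtain ⟨ι⟩ := Function.Embedding.nonempty_of_card_le hcard
  let φ : Finset (Fin m) → Finset (Fin n) :=
    fun T => ((univ : Finset (Fin a)).disjSum (T ×ˢ (univ : Finset (Fin L)))).map ι
  have h1 : ∀ T, (φ T).card = a + T.card * L := by
    intro T
    simp [φ, Finset.card_map, Finset.card_disjSum]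
  refine ⟨φ, h1, ?_⟩
  intro T T'
  rw [← h1]
  congr 1
  simp only [φ, ← Finset.map_inter]
  congr 1
  ext x
  rcases x with x | ⟨x, y⟩
  · simp
  · simp

/-- Embedding into the neighbourhood of `F0`: one element of each block in `F0`, `b` outside. -/
theorem emb2_exists (n k m b : ℕ) (h : k + m * b ≤ n) (hm : m ≤ k) :
    ∃ F0 : Finset (Fin n), F0.card = k ∧ ∃ ψ : Finset (Fin m) → Finset (Fin n),
      (∀ T, (ψ T).card = T.card * (1 + b)) ∧ (∀ T, (F0 ∩ ψ T).card = T.card) ∧
      ∀ T T', (ψ T ∩ ψ T').card = (T ∩ T').card * (1 + b) := by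
  classical
  have hcard : Fintype.card (Fin k ⊕ Fin m × Fin b) ≤ Fintype.card (Fin n) := by
    simpa using h
  obtain ⟨ι⟩ := Function.Embedding.nonempty_of_card_le hcard
  let e : Fin m ↪ Fin k := (Fin.castLEEmb hm)
  let ψ : Finset (Fin m) → Finset (Fin n) :=
    fun T => ((T.map e).disjSum (T ×ˢ (univ : Finset (Fin b)))).map ι
  let F0 : Finset (Fin n) := ((univ : Finset (Fin k)).disjSum ∅).map ι
  have h1 : ∀ T, (ψ T).card = T.card * (1 + b) := by
    intro T
    simp [ψ, Finset.card_map, Finset.card_disjSum]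
    ring
  refine ⟨F0, by simp [F0, Finset.card_disjSum], ψ, h1, ?_, ?_⟩
  · intro T
    have : F0 ∩ ψ T = ((T.map e).disjSum (∅ : Finset (Fin m × Fin b))).map ι := by
      simp only [F0, ψ, ← Finset.map_inter]
      congr 1
      ext x
      rcases x with x | ⟨x, y⟩
      · simp
      · simp
    rw [this]
    simp [Finset.card_disjSum]
  · intro T T'
    rw [← h1]
    congr 1
    simp only [ψ, ← Finset.map_inter]
    congr 1
    ext x
    rcases x with x | ⟨x, y⟩
    · rw [Finset.mem_inter, Finset.inl_mem_disjSum, Finset.inl_mem_disjSum,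
        Finset.inl_mem_disjSum, ← Finset.mem_inter, Finset.map_inter]
    · simp

end Pool.Dia50
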