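import Mathlib

/-!
Helper file (helper50) for MP_d16438_co: the tensor square of the centred indicator vectors.
-/

set_option autoImplicit false

namespace Pool.Dia50

open Finset

variable {n d : ℕ}

/-- The centred indicator vector. -/
noncomputable def xv (c : ℝ) (A : Finset (Fin n)) : Fin n → ℝ := fun i => (if i ∈ A then 1 else 0) - c

theorem xv_inner (c : ℝ) (A B : Finset (Fin n)) :
    ∑ i, xv c A i * xv c B i =
      ((A ∩ B).card : ℝ) - c * A.card - c * B.card + c ^ 2 * n := by
  classical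
  have h1 : ∀ i : Fin n, xv c A i * xv c B i = (if i ∈ A ∩ B then (1:ℝ) else 0)
      - c * (if i ∈ A then 1 else 0) - c * (if i ∈ B then 1 else 0) + c ^ 2 := by
    intro i
    unfold xv
    by_cases hA : i ∈ A <;> by_cases hB : i ∈ B <;> simp [hA, hB] <;> ring
  rw [Finset.sum_congr rfl (fun i _ => h1 i)]
  rw [Finset.sum_add_distrib, Finset.sum_sub_distrib, Finset.sum_sub_distrib, ← Finset.mul_sum,
    ← Finset.mul_sum, Finset.sum_const, Finset.card_univ, Fintype.card_fin]
  simp only [Finset.sum_boole, nsmul_eq_mul, Finset.filter_mem_eq_inter, Finset.univ_inter]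
  ring

/-- The point of `ℝ^d` attached to `A`: the tensor square, transported by an injection of the
index set. -/
noncomputable def pt (ι : Fin n × Fin n ↪ Fin d) (c : ℝ) (A : Finset (Fin n)) :
    EuclideanSpace ℝ (Fin d) :=
  WithLp.toLp 2 (Function.extend ι (fun y => xv c A y.1 * xv c A y.2) 0)

theorem sum_extend (ι : Fin n × Fin n ↪ Fin d) (f g : Fin n × Fin n → ℝ) :
    ∑ i, (Function.extend ι f 0 i - Function.extend ι g 0 i) ^ 2 = ∑ y, (f y - g y) ^ 2 := by
  classical
  have h1 : ∑ y, (f y - g y) ^ 2 =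
      ∑ i ∈ (univ : Finset (Fin n × Fin n)).map ι,
        (Function.extend ι f 0 i - Function.extend ι g 0 i) ^ 2 := by
    rw [Finset.sum_map]
    apply Finset.sum_congr rfl
    intro y _
    rw [ι.injective.extend_apply, ι.injective.extend_apply]
  rw [h1]
  symm
  apply Finset.sum_subset (Finset.subset_univ _)
  intro i _ hi
  have hi' : ¬ ∃ a, ι a = i := by
    rintro ⟨a, ha⟩
    exact hi (Finset.mem_map.2 ⟨a, Finset.mem_univ _, ha⟩)
  rw [Function.extend_apply' _ _ _ hi', Function.extend_apply' _ _ _ hi']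
  simp

theorem dist_pt_sq (ι : Fin n × Fin n ↪ Fin d) (c : ℝ) (k s : ℕ) (hc : c ^ 2 * n - 2 * c * k + s = 0)
    (A B : Finset (Fin n)) (hA : A.card = k) (hB : B.card = k) :
    dist (pt ι c A) (pt ι c B) ^ 2 =
      2 * ((k : ℝ) - s) ^ 2 - 2 * (((A ∩ B).card : ℝ) - s) ^ 2 := by
  classical
  have h0 : dist (pt ι c A) (pt ι c B) ^ 2 =
      ∑ i, ((pt ι c A).ofLp i - (pt ι c B).ofLp i) ^ 2 := by
    rw [EuclideanSpace.dist_eq, Real.sq_sqrt (Finset.sum_nonneg (fun i _ => sq_nonneg _))]
    apply Finset.sum_congr rfl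
    intro i _
    rw [Real.dist_eq, sq_abs]
  rw [h0]
  unfold pt
  simp only []
  rw [sum_extend]
  have h1 : ∀ y : Fin n × Fin n,
      (xv c A y.1 * xv c A y.2 - xv c B y.1 * xv c B y.2) ^ 2 =
      (xv c A y.1 * xv c A y.1) * (xv c A y.2 * xv c A y.2)
      - 2 * ((xv c A y.1 * xv c B y.1) * (xv c A y.2 * xv c B y.2))
      + (xv c B y.1 * xv c B y.1) * (xv c B y.2 * xv c B y.2) := by
    intro y; ring
  rw [Finset.sum_congr rfl (fun y _ => h1 y), Finset.sum_add_distrib, Finset.sum_sub_distrib,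
    ← Finset.mul_sum]
  have h2 : ∀ f g : Fin n → ℝ, ∑ y : Fin n × Fin n, f y.1 * g y.2 = (∑ i, f i) * ∑ i, g i := by
    intro f g
    rw [Fintype.sum_prod_type, Finset.sum_mul]
    apply Finset.sum_congr rfl
    intro i _
    rw [Finset.mul_sum]
  rw [h2 (fun i => xv c A i * xv c A i) (fun i => xv c A i * xv c A i),
    h2 (fun i => xv c A i * xv c B i) (fun i => xv c A i * xv c B i),
    h2 (fun i => xv c B i * xv c B i) (fun i => xv c B i * xv c B i),
    xv_inner, xv_inner, xv_inner, Finset.inter_self, Finset.inter_self, hA, hB]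
  have e1 : (k : ℝ) - c * k - c * k + c ^ 2 * n = k - s := by linarith
  have e2 : ((A ∩ B).card : ℝ) - c * k - c * k + c ^ 2 * n = ((A ∩ B).card : ℝ) - s := by linarith
  rw [e1, e2]
  ring

/-- A real root of the quadratic equation for the shift. -/
theorem exists_shift (n k s : ℕ) (hn : 0 < n) (h : s * n ≤ k ^ 2) :
    ∃ c : ℝ, c ^ 2 * n - 2 * c * k + s = 0 := by
  have hn' : (n : ℝ) ≠ 0 := by positivity
  have h' : (0 : ℝ) ≤ (k : ℝ) ^ 2 - s * n := by
    have : ((s * n : ℕ) : ℝ) ≤ ((k ^ 2 : ℕ) : ℝ) := by exact_mod_cast h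
    push_cast at this
    linarith
  refine ⟨((k : ℝ) - Real.sqrt ((k : ℝ) ^ 2 - s * n)) / n, ?_⟩
  have hs := Real.sq_sqrt h'
  field_simp
  nlinarith [hs]

/-- `r + 1` sets of size `k` with pairwise intersections `s`: the ground set is large. -/
theorem many_sets (n k s m : ℕ) (C : Finset (Finset (Fin n))) (hC : ∀ A ∈ C, A.card = k)
    (hs : ∀ A ∈ C, ∀ B ∈ C, A ≠ B → (A ∩ B).card = s) (hm : C.card = m + 1) :
    2 * ((m + 1) * k) ≤ 2 * n + (m + 1) * m * s := by
  classical
  let deg : Fin n → ℕ := fun x => (C.filter (fun A => x ∈ A)).card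
  have h1 : ∑ x, deg x = (m + 1) * k := by
    simp only [deg, Finset.card_filter]
    rw [Finset.sum_comm]
    have : ∀ A ∈ C, ∑ x : Fin n, (if x ∈ A then 1 else 0) = k := by
      intro A hA
      rw [← hC A hA]
      simp
    rw [Finset.sum_congr rfl this, Finset.sum_const, smul_eq_mul, hm]
  have h2 : ∑ x, deg x * deg x = (m + 1) * k + (m + 1) * m * s := by
    have e1 : ∀ x, deg x * deg x = ∑ A ∈ C, ∑ B ∈ C, (if x ∈ A ∩ B then 1 else 0) := by
      intro x
      simp only [deg, Finset.card_filter]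
      rw [Finset.sum_mul_sum]
      apply Finset.sum_congr rfl; intro A _
      apply Finset.sum_congr rfl; intro B _
      by_cases hA : x ∈ A <;> by_cases hB : x ∈ B <;> simp [hA, hB]
    rw [Finset.sum_congr rfl (fun x _ => e1 x), Finset.sum_comm]
    have e2 : ∀ A ∈ C, ∑ x : Fin n, ∑ B ∈ C, (if x ∈ A ∩ B then 1 else 0) = k + m * s := by
      intro A hA
      rw [Finset.sum_comm]
      have e3 : ∀ B ∈ C, ∑ x : Fin n, (if x ∈ A ∩ B then 1 else 0) =
          if B = A then k else s := by
        intro B hB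
        have e4 : ∑ x : Fin n, (if x ∈ A ∩ B then 1 else 0) = (A ∩ B).card := by
          rw [← Finset.card_filter]; congr 1; ext x; simp
        rw [e4]
        by_cases hBA : B = A
        · rw [if_pos hBA, hBA, Finset.inter_self, hC A hA]
        · rw [if_neg hBA, hs A hA B hB (fun h => hBA h.symm)]
      rw [Finset.sum_congr rfl e3, ← Finset.add_sum_erase C _ hA, if_pos rfl]
      have e5 : ∀ B ∈ C.erase A, (if B = A then k else s) = s := by
        intro B hB
        rw [if_neg (Finset.ne_of_mem_erase hB)]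
      rw [Finset.sum_congr rfl e5, Finset.sum_const, smul_eq_mul, Finset.card_erase_of_mem hA, hm]
      simp
    rw [Finset.sum_congr rfl e2, Finset.sum_const, smul_eq_mul, hm]
    ring
  have h3 : ∀ x : ℕ, 3 * x ≤ 2 + x * x := by
    intro x
    rcases x with _ | _ | x
    · simp
    · simp
    · nlinarith
  have h4 : 3 * ∑ x, deg x ≤ 2 * n + ∑ x, deg x * deg x := by
    rw [Finset.mul_sum]
    calc ∑ x : Fin n, 3 * deg x ≤ ∑ x : Fin n, (2 + deg x * deg x) :=
          Finset.sum_le_sum (fun x _ => h3 (deg x))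
      _ = 2 * n + ∑ x, deg x * deg x := by
          rw [Finset.sum_add_distrib, Finset.sum_const, Finset.card_univ, Fintype.card_fin,
            smul_eq_mul]
          ring
  rw [h1, h2] at h4
  omega

end Pool.Dia50
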