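import Mathlib
import Pool.Agent.Dia50.Chain

/-!
Helper file (helper50) for MP_d16438_co: the induction on the size of the clique.
-/

set_option autoImplicit false

namespace Pool.Dia50

open Finset

theorem dens_one (n k s N : ℕ) (hk : k ≤ n) : Dens 1 n k s N := by
  intro F hF hN
  have hpos : 0 < n.choose k := Nat.choose_pos hk
  have hF0 : F.Nonempty := by
    rw [← Finset.card_pos]
    rcases Nat.eq_zero_or_pos F.card with h | h
    · rw [h] at hN; omega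
    · exact h
  obtain ⟨A, hA⟩ := hF0
  refine ⟨{A}, by simpa using hA, by simp, ?_⟩
  intro B hB C hC hne
  rw [Finset.mem_singleton] at hB hC
  exact absurd (hB.trans hC.symm) hne

theorem dens_num (a j u t : ℕ) (ha : 1 ≤ a) (hj : 1 ≤ j) (hja : j + 1 ≤ 2 ^ a)
    (hD : Dens j ((2 * j + 1) * 2 ^ a * 2 ^ (u + (t + 7 + a))) (2 * 2 ^ a * 2 ^ (u + (t + 7 + a)))
      (2 * 2 ^ (u + (t + 7 + a))) (2 ^ (2 ^ (t + 7 + a)))) :
    Dens (j + 1) ((2 * (j + 1) + 1) * 2 ^ a * 2 ^ (u + 7 + 2 * a + t))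
      (2 * 2 ^ a * 2 ^ (u + 7 + 2 * a + t)) (2 * 2 ^ (u + 7 + 2 * a + t)) (2 ^ (2 ^ t)) := by
  obtain ⟨b, hb⟩ : ∃ b, 2 ^ a = b + 1 := ⟨2 ^ a - 1, by have := Nat.one_le_two_pow (n := a); omega⟩
  have hb1 : 1 ≤ b := by omega
  set h := 2 ^ (u + (t + 7 + a)) with hh
  have hh' : 2 ^ (u + 7 + 2 * a + t) = 2 ^ a * h := by rw [hh, ← pow_add]; congr 1; ring
  rw [hh']
  have hhpos : 1 ≤ h := Nat.one_le_two_pow
  set τ := 2 ^ t with hτ
  have hτ1 : 1 ≤ τ := Nat.one_le_two_pow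
  set lam := 2 ^ (u + 5 + a) with hlam
  -- q = 2^(a+t+3), σ = 8 τ
  have hq : 2 ^ (a + t + 3) = (b + 1) * (8 * τ) := by
    rw [← hb, hτ, pow_add, pow_add]; ring
  have hlh : 8 * τ * lam = 2 * h := by
    rw [hτ, hlam, hh]
    have : (8 : ℕ) = 2 ^ 3 := by norm_num
    rw [this, ← pow_add, ← pow_add, ← pow_succ']
    congr 1; ring
  rw [hb] at hD ⊢
  have h2τ : 2 ^ (t + 1) = 2 * τ := by rw [hτ, pow_succ]; ring
  have hτ'' : 2 ^ (t + 7 + a) = 128 * (b + 1) * τ := by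
    rw [← hb, hτ, pow_add, pow_add]; ring
  obtain ⟨φ, hφa, hφb⟩ := emb_exists ((2 * (j + 1) + 1) * (b + 1) * ((b + 1) * h)) (2 * h)
    (20 * τ * (b + 2)) (b * lam) (by
      have e1 : 2 * (20 * τ * (b + 2) * (b * lam)) = 10 * h * (b * (b + 2)) := by
        calc 2 * (20 * τ * (b + 2) * (b * lam)) = 5 * (8 * τ * lam) * (b * (b + 2)) := by ring
          _ = _ := by rw [hlh]; ring
      have e2 : 2 * (2 * h + 20 * τ * (b + 2) * (b * lam)) ≤
          2 * ((2 * (j + 1) + 1) * (b + 1) * ((b + 1) * h)) := by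
        rw [mul_add, e1]
        have e3 : 2 * ((2 * (j + 1) + 1) * (b + 1) * ((b + 1) * h)) =
            (4 * j + 6) * ((b + 1) * (b + 1) * h) := by ring
        rw [e3]
        have e4 : 10 * ((b + 1) * (b + 1) * h) ≤ (4 * j + 6) * ((b + 1) * (b + 1) * h) :=
          Nat.mul_le_mul_right _ (by omega)
        have e5 : 2 * (2 * h) + 10 * h * (b * (b + 2)) + 6 * h =
          10 * ((b + 1) * (b + 1) * h) := by ring
        omega
      omega)
  obtain ⟨F0, hF0, ψ, hψa, hψb, hψc⟩ := emb2_exists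
    ((2 * (j + 1) + 1) * (b + 1) * ((b + 1) * h)) (2 * (b + 1) * ((b + 1) * h))
    ((2 * j + 1) * (b + 1) * h) b (by
      have e3 : (2 * (j + 1) + 1) * (b + 1) * ((b + 1) * h) =
          2 * (b + 1) * ((b + 1) * h) + (2 * j + 1) * (b + 1) * h * (b + 1) := by ring
      rw [e3]
      exact Nat.add_le_add_left (Nat.mul_le_mul_left _ (by omega)) _) (by
      have e3 : 2 * (b + 1) * ((b + 1) * h) = (2 * (b + 1)) * (b + 1) * h := by ring
      rw [e3]
      apply Nat.mul_le_mul_right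
      apply Nat.mul_le_mul_right
      omega)
  have hκ : ∀ T : Finset (Fin (20 * τ * (b + 2))), T.card = 4 * (2 * τ) + 2 ^ (a + t + 3) →
      (φ T).card = 2 * (b + 1) * ((b + 1) * h) := by
    intro T hT
    rw [hφa, hT, hq]
    calc 2 * h + (4 * (2 * τ) + (b + 1) * (8 * τ)) * (b * lam)
        = 2 * h + (8 * τ * lam) * (b * (b + 2)) := by ring
      _ = _ := by rw [hlh]; ring
  apply dens_step j _ _ _ (2 ^ τ) (2 ^ (2 ^ (t + 7 + a))) (20 * τ * (b + 2))
    (4 * (2 * τ) + 2 ^ (a + t + 3)) (4 * (2 * τ)) ((2 * j + 1) * (b + 1) * h)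
    (2 * (b + 1) * h) (2 * h) hj ?_ φ hκ ?_ ?_ F0 hF0 ψ ?_ ?_ ?_ hD ?_
  · -- s < k
    have : 0 < (b + 1) * h := by positivity
    nlinarith
  · intro T T' _ _ hTT
    rw [hφb, hTT]
    calc 2 * h + 4 * (2 * τ) * (b * lam) = 2 * h + (8 * τ * lam) * b := by ring
      _ = _ := by rw [hlh]; ring
  · intro Z hZ hd
    refine pair_dens (a + t + 3) (2 * τ) (by omega) ?_ ?_ Z hZ (hd.trans ?_)
    · rw [hq]
      nlinarith
    · rw [hq]; ring
    · apply Nat.mul_le_mul_right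
      rw [← pow_succ']
      exact Nat.pow_le_pow_right (by norm_num) (by omega)
  · intro T hT
    rw [hψa, hT]; ring
  · intro T hT
    rw [hψb, hT]; ring
  · intro T T' _ _ hTT
    rw [hψc, hTT]; ring
  · have e1 : (20 * τ * (b + 2)).choose (4 * (2 * τ) + 2 ^ (a + t + 3)) ≤
        2 ^ (20 * τ * (b + 2)) := Nat.choose_le_two_pow _ _
    calc 2 * 2 ^ τ * ((20 * τ * (b + 2)).choose (4 * (2 * τ) + 2 ^ (a + t + 3))) ^ 2
        ≤ 2 * 2 ^ τ * (2 ^ (20 * τ * (b + 2))) ^ 2 :=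
          Nat.mul_le_mul_left _ (Nat.pow_le_pow_left e1 2)
      _ = 2 ^ (1 + τ + 20 * τ * (b + 2) * 2) := by
          rw [← pow_mul, pow_add, pow_add, pow_one]
      _ ≤ 2 ^ (2 ^ (t + 7 + a)) := by
          apply Nat.pow_le_pow_right (by norm_num)
          rw [hτ'']
          nlinarith

/-- For `2^a ≥ j` all dense families in the slices of the chain contain `j` sets with the right
pairwise intersections. -/
theorem dens_all (a : ℕ) (ha : 1 ≤ a) (j : ℕ) (hj1 : 1 ≤ j) (hja : j ≤ 2 ^ a) :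
    ∀ t, Dens j ((2 * j + 1) * 2 ^ a * 2 ^ ((j - 1) * (7 + 2 * a) + t))
      (2 * 2 ^ a * 2 ^ ((j - 1) * (7 + 2 * a) + t))
      (2 * 2 ^ ((j - 1) * (7 + 2 * a) + t)) (2 ^ (2 ^ t)) := by
  induction j, hj1 using Nat.le_induction with
  | base =>
    refine fun t => dens_one _ _ _ _ ?_
    apply Nat.mul_le_mul_right
    apply Nat.mul_le_mul_right
    norm_num
  | succ j hj ih =>
    intro t
    have h1 := dens_num a j ((j - 1) * (7 + 2 * a)) t ha hj hja (ih (by omega) (t + 7 + a))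
    have e1 : (j - 1) * (7 + 2 * a) + 7 + 2 * a + t = (j + 1 - 1) * (7 + 2 * a) + t := by
      obtain ⟨i, rfl⟩ : ∃ i, j = i + 1 := ⟨j - 1, by omega⟩
      simp only [Nat.add_sub_cancel]
      ring
    rw [e1] at h1
    exact h1

end Pool.Dia50
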