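import Mathlib
import Pool.Agent.Dia50.Ind
import Pool.Agent.Dia50.Geo

/-!
Helper file (helper50) for MP_d16438_co: the point sets.
-/

set_option autoImplicit false

namespace Pool.Dia50

open Finset

theorem core (r h a d N : ℕ) (hr : 2 ≤ r) (hh : 1 ≤ h) (hN : 1 ≤ N) (ha : r * (r + 1) < 2 ^ a)
    (hD : Dens r ((2 * r + 1) * 2 ^ a * h) (2 * 2 ^ a * h) (2 * h) N)
    (hd : ((2 * r + 1) * 2 ^ a * h) * ((2 * r + 1) * 2 ^ a * h) ≤ d) :
    ∃ P : Finset (EuclideanSpace ℝ (Fin d)), P.Nonempty ∧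
      (∀ S ⊆ P, S.card = r + 1 →
        ¬ ∀ x ∈ S, ∀ y ∈ S, x ≠ y → dist x y =
          Metric.diam (P : Set (EuclideanSpace ℝ (Fin d)))) ∧
      ∀ Q ⊆ P, P.card ≤ N * Q.card → ∃ S ⊆ Q, S.card = r ∧
        ∀ x ∈ S, ∀ y ∈ S, x ≠ y → dist x y =
          Metric.diam (P : Set (EuclideanSpace ℝ (Fin d))) := by
  classical
  set β := 2 ^ a with hβ
  have hβr : 2 * r + 1 ≤ 2 * β := by nlinarith
  have hβ4 : 4 ≤ β := by nlinarith
  set n := (2 * r + 1) * β * h with hn
  set k := 2 * β * h with hk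
  set s := 2 * h with hs
  have hn0 : 0 < n := by positivity
  have hsn : s * n ≤ k ^ 2 := by
    have e1 : s * n = (2 * r + 1) * (2 * β * h * h) := by rw [hs, hn]; ring
    have e2 : k ^ 2 = (2 * β) * (2 * β * h * h) := by rw [hk]; ring
    rw [e1, e2]
    exact Nat.mul_le_mul_right _ hβr
  have hsk : 2 * s + 1 ≤ k := by
    rw [hs, hk]; nlinarith
  have hkn : k ≤ n := by
    rw [hk, hn]
    apply Nat.mul_le_mul_right
    apply Nat.mul_le_mul_right
    omega
  obtain ⟨c, hc⟩ := exists_shift n k s hn0 hsn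
  obtain ⟨ι⟩ : Nonempty (Fin n × Fin n ↪ Fin d) :=
    Function.Embedding.nonempty_of_card_le (by simpa using hd)
  set X := powersetCard k (univ : Finset (Fin n)) with hX
  have hXc : ∀ A ∈ X, A.card = k := fun A hA => (Finset.mem_powersetCard.1 hA).2
  have hXcard : X.card = n.choose k := by
    rw [hX, Finset.card_powersetCard, Finset.card_univ, Fintype.card_fin]
  set P := X.image (pt ι c) with hP
  have hdist : ∀ A ∈ X, ∀ B ∈ X, dist (pt ι c A) (pt ι c B) ^ 2 =
      2 * ((k : ℝ) - s) ^ 2 - 2 * (((A ∩ B).card : ℝ) - s) ^ 2 :=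
    fun A hA B hB => dist_pt_sq ι c k s hc A B (hXc A hA) (hXc B hB)
  have hskR : 2 * (s : ℝ) + 1 ≤ k := by exact_mod_cast hsk
  have hs0 : (0 : ℝ) ≤ s := Nat.cast_nonneg s
  have hinj : Set.InjOn (pt ι c) (X : Set (Finset (Fin n))) := by
    intro A hA B hB hAB
    have h1 := hdist A hA B hB
    rw [hAB, dist_self] at h1
    have h2 : (((A ∩ B).card : ℝ) - s) ^ 2 = ((k : ℝ) - s) ^ 2 := by
      norm_num at h1; linarith
    have h3 : ((A ∩ B).card : ℝ) = k := by
      have h0 : (0 : ℝ) ≤ ((A ∩ B).card : ℝ) := Nat.cast_nonneg _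
      rcases sq_eq_sq_iff_eq_or_eq_neg.1 h2 with h | h
      · linarith
      · exfalso; linarith
    have h4 : (A ∩ B).card = k := by exact_mod_cast h3
    have e1 : A ∩ B = A :=
      Finset.eq_of_subset_of_card_le Finset.inter_subset_left (by rw [hXc A hA, h4])
    have e2 : A ∩ B = B :=
      Finset.eq_of_subset_of_card_le Finset.inter_subset_right (by rw [hXc B hB, h4])
    rw [← e1, e2]
  set D : ℝ := Real.sqrt (2 * ((k : ℝ) - s) ^ 2) with hDdef
  have hD0 : 0 ≤ D := Real.sqrt_nonneg _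
  have hD2 : D ^ 2 = 2 * ((k : ℝ) - s) ^ 2 := Real.sq_sqrt (by positivity)
  have hle : ∀ A ∈ X, ∀ B ∈ X, dist (pt ι c A) (pt ι c B) ≤ D := by
    intro A hA B hB
    apply Real.le_sqrt_of_sq_le
    rw [hdist A hA B hB]
    nlinarith [sq_nonneg (((A ∩ B).card : ℝ) - s)]
  have hiff : ∀ A ∈ X, ∀ B ∈ X, dist (pt ι c A) (pt ι c B) = D ↔ (A ∩ B).card = s := by
    intro A hA B hB
    constructor
    · intro h
      have h1 := hdist A hA B hB
      rw [h, hD2] at h1
      have h2 : (((A ∩ B).card : ℝ) - s) ^ 2 = 0 := by linarith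
      have h3 : ((A ∩ B).card : ℝ) = s := by
        have := pow_eq_zero_iff (two_ne_zero) |>.1 h2
        linarith
      exact_mod_cast h3
    · intro h
      have h1 := hdist A hA B hB
      rw [h, sub_self] at h1
      have h2 : dist (pt ι c A) (pt ι c B) ^ 2 = D ^ 2 := by rw [h1, hD2]; ring
      exact (sq_eq_sq₀ dist_nonneg hD0).1 h2
  -- the diameter
  have hdiam : Metric.diam (P : Set (EuclideanSpace ℝ (Fin d))) = D := by
    apply le_antisymm
    · apply Metric.diam_le_of_forall_dist_le hD0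
      intro x hx y hy
      rw [Finset.mem_coe, hP, Finset.mem_image] at hx hy
      obtain ⟨A, hA, rfl⟩ := hx
      obtain ⟨B, hB, rfl⟩ := hy
      exact hle A hA B hB
    · obtain ⟨C, hCX, hCr, hC⟩ := hD X hXc (by
        rw [hXcard]; exact Nat.le_mul_of_pos_left _ hN)
      have h2 : 1 < C.card := by omega
      obtain ⟨A, hA, B, hB, hne⟩ := Finset.one_lt_card.1 h2
      have h3 := (hiff A (hCX hA) B (hCX hB)).2 (hC A hA B hB hne)
      rw [← h3]
      apply Metric.dist_le_diam_of_mem P.finite_toSet.isBounded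
      · exact Finset.mem_coe.2 (Finset.mem_image_of_mem _ (hCX hA))
      · exact Finset.mem_coe.2 (Finset.mem_image_of_mem _ (hCX hB))
  have hPcard : P.card = n.choose k := by
    rw [hP, Finset.card_image_of_injOn hinj, hXcard]
  -- subsets of `P`
  have hsub : ∀ Q ⊆ P, ((X.filter (fun A => pt ι c A ∈ Q)).image (pt ι c) = Q) := by
    intro Q hQ
    ext x
    rw [Finset.mem_image]
    constructor
    · rintro ⟨A, hA, rfl⟩
      exact (Finset.mem_filter.1 hA).2
    · intro hx
      have := hQ hx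
      rw [hP, Finset.mem_image] at this
      obtain ⟨A, hA, rfl⟩ := this
      exact ⟨A, Finset.mem_filter.2 ⟨hA, hx⟩, rfl⟩
  have hsubc : ∀ Q ⊆ P, (X.filter (fun A => pt ι c A ∈ Q)).card = Q.card := by
    intro Q hQ
    conv_rhs => rw [← hsub Q hQ]
    rw [Finset.card_image_of_injOn]
    intro A hA B hB hAB
    exact hinj (Finset.mem_filter.1 hA).1 (Finset.mem_filter.1 hB).1 hAB
  refine ⟨P, ?_, ?_, ?_⟩
  · rw [← Finset.card_pos, hPcard]
    exact Nat.choose_pos hkn
  · intro S hS hSr hSd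
    have hcard := hsubc S hS
    rw [hSr] at hcard
    have h1 := many_sets n k s r (X.filter (fun A => pt ι c A ∈ S))
      (fun A hA => hXc A (Finset.mem_filter.1 hA).1)
      (by
        intro A hA B hB hne
        rw [Finset.mem_filter] at hA hB
        apply (hiff A hA.1 B hB.1).1
        rw [← hdiam]
        apply hSd _ hA.2 _ hB.2
        intro h
        exact hne (hinj hA.1 hB.1 h)) hcard
    rw [hk, hn, hs] at h1
    have h2 : 2 * (β * h) ≤ 2 * (r * (r + 1) * h) := by nlinarith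
    have h3 : β * h ≤ r * (r + 1) * h := by omega
    have := Nat.le_of_mul_le_mul_right h3 hh
    omega
  · intro Q hQ hcard
    obtain ⟨C, hCF, hCr, hC⟩ := hD (X.filter (fun A => pt ι c A ∈ Q))
      (fun A hA => hXc A (Finset.mem_filter.1 hA).1)
      (by rw [hsubc Q hQ, ← hPcard]; exact hcard)
    have hCX : ∀ A ∈ C, A ∈ X := fun A hA => (Finset.mem_filter.1 (hCF hA)).1
    refine ⟨C.image (pt ι c), ?_, ?_, ?_⟩
    · intro x hx
      rw [Finset.mem_image] at hx
      obtain ⟨A, hA, rfl⟩ := hx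
      exact (Finset.mem_filter.1 (hCF hA)).2
    · rw [Finset.card_image_of_injOn, hCr]
      intro A hA B hB hAB
      exact hinj (hCX A hA) (hCX B hB) hAB
    · intro x hx y hy hne
      rw [Finset.mem_image] at hx hy
      obtain ⟨A, hA, rfl⟩ := hx
      obtain ⟨B, hB, rfl⟩ := hy
      rw [hdiam]
      apply (hiff A (hCX A hA) B (hCX B hB)).2
      apply hC A hA B hB
      rintro rfl
      exact hne rfl

end Pool.Dia50
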